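import Pool.Agent.Q206.Btte.Main

set_option autoImplicit false

/-!
`0'_btte` has at most countably many minimal covers in the btte-degrees.

Idea: there is a c.e. set `C` of pairs with finite columns such that for every btte-like operator
`Γ` with bound `m` and every input `i`, the elements `⟨k, j⟩` of the (at most `m`-element) support
of `Γ` at `i` with `k ≥ i` and `k ≥` the index of `(Γ, m)` are in `C`. Put
`A(B) = {⟨i, j⟩ : i ∈ B, ⟨i, j⟩ ∉ C}`. Then `A(B) ≤_btte B ⊕ Kᶜ`, and if
`B = Γ(A(B) ⊕ Kᶜ)`, then whether `i ∈ B` is determined by `B ∩ [0, i)` for all large `i`, so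
that for each `Γ` there are only finitely many such `B`. Hence for all but countably many `B`
above `Kᶜ` the set `A(B) ⊕ Kᶜ` is strictly between `Kᶜ` and `B`.
-/

namespace Pool.Agent.Results.MP_36bef2_lc.CountablyManyMinimalCovers

open Q206.Btte Cardinal

/-- Sets of natural numbers, preordered by `≤_btte`. -/
structure NatSet where
  /-- the set -/
  carrier : Set ℕ

instance : Preorder NatSet where
  le X Y := Le X.carrier Y.carrier
  le_refl X := le_rfl' X.carrier
  le_trans _ _ _ h1 h2 := le_trans' h1 h2

/-- The partial order of the btte-degrees. -/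
abbrev Degree := Antisymmetrization NatSet (· ≤ ·)

/-- The btte-degree of a set. -/
def deg (X : Set ℕ) : Degree := toAntisymmetrization (· ≤ ·) ⟨X⟩

/-- The degree `0'_btte` of the complement of the halting set. -/
def zeroJump : Degree := deg Kᶜ

/-- `b` is a minimal cover of `a`. -/
def IsMinimalCover (a b : Degree) : Prop := a < b ∧ ∀ c : Degree, ¬ (a < c ∧ c < b)

/-- The degree `0'_btte` has at most countably many minimal covers in the btte-degrees; in
particular it does not have a continuum of minimal covers. -/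
theorem result : {b : Degree | IsMinimalCover zeroJump b}.Countable ∧
    #{b : Degree | IsMinimalCover zeroJump b} < 𝔠 := by
  have h : {b : Degree | IsMinimalCover zeroJump b}.Countable := by
    refine (countable_exceptions.image deg).mono ?_
    rintro b ⟨hb1, hb2⟩
    obtain ⟨⟨B⟩, rfl⟩ : ∃ X : NatSet, toAntisymmetrization (· ≤ ·) X = b :=
      ⟨ofAntisymmetrization (· ≤ ·) b, toAntisymmetrization_ofAntisymmetrization (· ≤ ·) b⟩
    have hKB : Le Kᶜ B := by
      have h1 : zeroJump ≤ deg B := hb1.le
      exact toAntisymmetrization_le_toAntisymmetrization_iff.1 h1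
    have hKX : Le Kᶜ (join (A B) Kᶜ) := right_le_join _ _
    have hXB : Le (join (A B) Kᶜ) B := join_le (A_le hKB) hKB
    refine ⟨B, ?_, rfl⟩
    by_contra hcon
    rw [Set.mem_ofPred_eq, not_or] at hcon
    obtain ⟨hn1, hn2⟩ := hcon
    refine hb2 (deg (join (A B) Kᶜ)) ⟨?_, ?_⟩
    · refine toAntisymmetrization_lt_toAntisymmetrization_iff.2 ?_
      refine lt_iff_le_not_ge.2 ⟨hKX, fun h1 => hn1 ?_⟩
      exact le_trans' (left_le_join _ _) h1
    · refine toAntisymmetrization_lt_toAntisymmetrization_iff.2 ?_
      exact lt_iff_le_not_ge.2 ⟨hXB, fun h1 => hn2 h1⟩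
  refine ⟨h, lt_of_le_of_lt ?_ Cardinal.aleph0_lt_continuum⟩
  exact Cardinal.le_aleph0_iff_set_countable.2 h

end Pool.Agent.Results.MP_36bef2_lc.CountablyManyMinimalCovers
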